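import Pool.Agent.J6H44.ERW.Uniq

set_option autoImplicit false

/-!
# MP_758450_pr: a right transient excited random walk with `μ = θ = 1`

The definitions of the cookie environments, of the Bernoulli trials, of `U(x)` and of the excited
random walk are in `Pool.Agent.J6H44.ERW.Defs`.
-/

open MeasureTheory ProbabilityTheory Filter Topology
open Pool.Agent.J6H44.ERW (Cookies trials U IsERW)

namespace Pool.Agent.Results.MP_758450_pr.RightTransient

/-- `ρ(x) = E[U(x) - μ x]` -/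
noncomputable def rho (p : Cookies) (μ : ℝ) (x : ℕ) : ℝ := ∫ b, ((U b x : ℝ) - μ * x) ∂trials p

/-- `ν(x) = E[(U(x) - μ x)²] / x` -/
noncomputable def nu (p : Cookies) (μ : ℝ) (x : ℕ) : ℝ :=
  (∫ b, ((U b x : ℝ) - μ * x) ^ 2 ∂trials p) / x

/-- `θ(x) = 2 ρ(x) / ν(x)` -/
noncomputable def theta (p : Cookies) (μ : ℝ) (x : ℕ) : ℝ := 2 * rho p μ x / nu p μ x

/-- There is a uniformly elliptic identically piled cookie environment `p` with
`μ = lim E[U(x)]/x = 1` and `θ = lim θ(x) = 1` (all second moments being finite) in which the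
excited random walk started at `0` exists and every such walk tends to `+∞` almost surely. -/
theorem result : ∃ p : Cookies,
    (∃ ε : ℝ, 0 < ε ∧ ∀ i, 1 ≤ i → ε ≤ (p i : ℝ) ∧ (p i : ℝ) ≤ 1 - ε) ∧
    (∀ x : ℕ, Integrable (fun b => (U b x : ℝ) ^ 2) (trials p)) ∧
    Tendsto (fun x : ℕ => (∫ b, (U b x : ℝ) ∂trials p) / x) atTop (𝓝 1) ∧
    Tendsto (fun x : ℕ => theta p 1 x) atTop (𝓝 1) ∧
    (∃ (Ω : Type) (_ : MeasurableSpace Ω) (P : Measure Ω) (X : ℕ → Ω → ℤ),
      IsProbabilityMeasure P ∧ IsERW p P X) ∧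
    ∀ (Ω : Type) (_ : MeasurableSpace Ω) (P : Measure Ω) (X : ℕ → Ω → ℤ),
      IsProbabilityMeasure P → IsERW p P X → ∀ᵐ ω ∂P, Tendsto (fun n => X n ω) atTop atTop := by
  obtain ⟨p, h1, h2, h3, h4, h5, h6, h7⟩ := Pool.Agent.J6H44.ERW.main
  refine ⟨p, h1, fun x => ?_, h4, ?_, h6, h7⟩
  · have h8 := ((h3 x).add ((h2 x).const_mul (2 * x))).sub (integrable_const ((x : ℝ) ^ 2))
    refine h8.congr (ae_of_all _ fun b => ?_)
    simp only [Pi.add_apply, Pi.sub_apply]
    ring
  · simpa only [theta, rho, nu, one_mul] using h5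

end Pool.Agent.Results.MP_758450_pr.RightTransient
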